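import Pool.Agent.MP_515557_an.H11.MBasic

/-! Crossing tight segments. -/

set_option autoImplicit false

open MeasureTheory Set Metric Filter Topology
open Pool.Agent.MP_515557_an.H11.Mono

namespace Pool.Agent.MP_515557_an.H2

variable {v : ℂ → ℂ} {l : ℂ → ℝ} {M K σ : ℝ} {C : Set ℂ}

/-- The barycentric identity for the monotonicity pairing. -/
theorem bary_id (v : ℂ → ℂ) (x1 x2 x3 y1 y2 y3 : ℂ) (a1 a2 a3 b1 b2 b3 : ℝ)
    (ha : a1 + a2 + a3 = 1) (hb : b1 + b2 + b3 = 1) :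
    a1 * b1 * FF v x1 y1 + a1 * b2 * FF v x1 y2 + a1 * b3 * FF v x1 y3
      + a2 * b1 * FF v x2 y1 + a2 * b2 * FF v x2 y2 + a2 * b3 * FF v x2 y3
      + a3 * b1 * FF v x3 y1 + a3 * b2 * FF v x3 y2 + a3 * b3 * FF v x3 y3
      = a1 * a2 * FF v x1 x2 + a1 * a3 * FF v x1 x3 + a2 * a3 * FF v x2 x3
        + b1 * b2 * FF v y1 y2 + b1 * b3 * FF v y1 y3 + b2 * b3 * FF v y2 y3
        + ip ((a1 • v x1 + a2 • v x2 + a3 • v x3) - (b1 • v y1 + b2 • v y2 + b3 • v y3))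
          ((a1 • x1 + a2 • x2 + a3 • x3) - (b1 • y1 + b2 • y2 + b3 • y3)) := by
  have e1 : a3 = 1 - a1 - a2 := by linarith
  have e2 : b3 = 1 - b1 - b2 := by linarith
  subst e1 e2
  simp only [FF, ip, Complex.sub_re, Complex.sub_im, Complex.add_re, Complex.add_im,
    Complex.smul_re, Complex.smul_im, smul_eq_mul]
  ring

/-- Two mutually tight triples with a common barycentre are tight to each other. -/
theorem tri (ha : Adm v l σ C) {x1 x2 x3 y1 y2 y3 : ℂ} {a1 a2 a3 b1 b2 b3 : ℝ}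
    (hx1 : x1 ∈ C) (hx2 : x2 ∈ C) (hx3 : x3 ∈ C) (hy1 : y1 ∈ C) (hy2 : y2 ∈ C) (hy3 : y3 ∈ C)
    (ha1 : 0 < a1) (ha2 : 0 ≤ a2) (ha3 : 0 ≤ a3) (hb1 : 0 < b1) (hb2 : 0 ≤ b2) (hb3 : 0 ≤ b3)
    (hsa : a1 + a2 + a3 = 1) (hsb : b1 + b2 + b3 = 1)
    (f12 : FF v x1 x2 = 0) (f13 : FF v x1 x3 = 0) (f23 : FF v x2 x3 = 0)
    (g12 : FF v y1 y2 = 0) (g13 : FF v y1 y3 = 0) (g23 : FF v y2 y3 = 0)
    (hb : a1 • x1 + a2 • x2 + a3 • x3 = b1 • y1 + b2 • y2 + b3 • y3) :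
    FF v x1 y1 = 0 := by
  have h := bary_id v x1 x2 x3 y1 y2 y3 a1 a2 a3 b1 b2 b3 hsa hsb
  rw [f12, f13, f23, g12, g13, g23, hb, sub_self] at h
  have h0 : ip ((a1 • v x1 + a2 • v x2 + a3 • v x3) - (b1 • v y1 + b2 • v y2 + b3 • v y3)) 0
      = 0 := by simp [ip]
  rw [h0] at h
  have m := ha.mono
  have t12 := mul_nonneg (mul_nonneg ha1.le hb2) (m _ hx1 _ hy2)
  have t13 := mul_nonneg (mul_nonneg ha1.le hb3) (m _ hx1 _ hy3)
  have t21 := mul_nonneg (mul_nonneg ha2 hb1.le) (m _ hx2 _ hy1)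
  have t22 := mul_nonneg (mul_nonneg ha2 hb2) (m _ hx2 _ hy2)
  have t23 := mul_nonneg (mul_nonneg ha2 hb3) (m _ hx2 _ hy3)
  have t31 := mul_nonneg (mul_nonneg ha3 hb1.le) (m _ hx3 _ hy1)
  have t32 := mul_nonneg (mul_nonneg ha3 hb2) (m _ hx3 _ hy2)
  have t33 := mul_nonneg (mul_nonneg ha3 hb3) (m _ hx3 _ hy3)
  have t11 : a1 * b1 * FF v x1 y1 ≤ 0 := by linarith
  have hp := mul_pos ha1 hb1
  refine le_antisymm ?_ (m _ hx1 _ hy1)
  by_contra hc
  linarith [mul_pos hp (not_le.1 hc)]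

/-- Two tight pairs with a common barycentre. -/
theorem seg (ha : Adm v l σ C) {x1 x2 y1 y2 : ℂ} {a1 a2 b1 b2 : ℝ}
    (hx1 : x1 ∈ C) (hx2 : x2 ∈ C) (hy1 : y1 ∈ C) (hy2 : y2 ∈ C)
    (ha1 : 0 < a1) (ha2 : 0 ≤ a2) (hb1 : 0 < b1) (hb2 : 0 ≤ b2)
    (hsa : a1 + a2 = 1) (hsb : b1 + b2 = 1) (f12 : FF v x1 x2 = 0) (g12 : FF v y1 y2 = 0)
    (hb : a1 • x1 + a2 • x2 = b1 • y1 + b2 • y2) : FF v x1 y1 = 0 :=
  tri ha (a3 := 0) (b3 := 0) hx1 hx2 hx2 hy1 hy2 hy2 ha1 ha2 le_rfl hb1 hb2 le_rfl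
    (by linarith) (by linarith) f12 f12 (FF_self v _) g12 g12 (FF_self v _) (by simpa using hb)

/-- All four end points of two overlapping tight segments are mutually tight. -/
theorem four (ha : Adm v l σ C) {x1 x2 y1 y2 p : ℂ}
    (hx1 : x1 ∈ C) (hx2 : x2 ∈ C) (hy1 : y1 ∈ C) (hy2 : y2 ∈ C)
    (f12 : FF v x1 x2 = 0) (g12 : FF v y1 y2 = 0)
    (hp : p ∈ openSegment ℝ x1 x2) (hp' : p ∈ openSegment ℝ y1 y2) :
    FF v x1 y1 = 0 ∧ FF v x1 y2 = 0 ∧ FF v x2 y1 = 0 ∧ FF v x2 y2 = 0 := by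
  obtain ⟨a, b, h1, h2, h3, h4⟩ := hp
  obtain ⟨c, d, k1, k2, k3, k4⟩ := hp'
  have f21 : FF v x2 x1 = 0 := by rw [FF_comm]; exact f12
  have g21 : FF v y2 y1 = 0 := by rw [FF_comm]; exact g12
  refine ⟨?_, ?_, ?_, ?_⟩
  · exact seg ha hx1 hx2 hy1 hy2 h1 h2.le k1 k2.le h3 k3 f12 g12 (by rw [h4, k4])
  · exact seg ha hx1 hx2 hy2 hy1 h1 h2.le k2 k1.le h3 (by linarith) f12 g21
      (by rw [h4, add_comm, k4])
  · exact seg ha hx2 hx1 hy1 hy2 h2 h1.le k1 k2.le (by linarith) k3 f21 g12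
      (by rw [add_comm, h4, k4])
  · exact seg ha hx2 hx1 hy2 hy1 h2 h1.le k2 k1.le (by linarith) (by linarith) f21 g21
      (by rw [add_comm, h4, add_comm, k4])

theorem mem_conf_univ {x y : ℂ} (hx : x ∈ C) (hy : y ∈ C) (hxy : x ≠ y) (h : FF v x y = 0) :
    (x, y) ∈ conf v C univ 0 :=
  ⟨hx, hy, hxy, mem_univ _, by simp [h]⟩

theorem crossC : SCrossC := by
  intro v l σ C ha g hg p hp hpC
  have ht := tight_eq ha hg
  by_cases h1 : p = g.1
  · exact ⟨g, hg, h1.symm⟩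
  obtain ⟨a, b, ha0, hb0, hab, hp⟩ := hp
  rcases ha0.eq_or_lt with h0 | h0
  · have hb1 : b = 1 := by linarith
    have h2 : p = g.2 := by rw [← hp, ← h0, hb1]; simp
    refine ⟨(p, g.1), mem_conf_univ hpC hg.1 h1 ?_, rfl⟩
    rw [h2, FF_comm]; exact ht
  · refine ⟨(p, g.1), mem_conf_univ hpC hg.1 h1 ?_, rfl⟩
    exact seg ha (a1 := 1) (a2 := 0) hpC hpC hg.1 hg.2.1 one_pos le_rfl h0 hb0 (by norm_num) hab
      (FF_self v p) ht (by rw [hp]; simp)

theorem crossB : SCrossB := by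
  intro v l σ ε C S ha hε hS g hg g' hg' hcr p hp hp'
  obtain ⟨x1, x2⟩ := g
  obtain ⟨y1, y2⟩ := g'
  have ht := tight_eq ha hg.1
  have ht' := tight_eq ha hg'.1
  have hx1 : x1 ∈ C := hg.1.1
  have hx2 : x2 ∈ C := hg.1.2.1
  have hy1 : y1 ∈ C := hg'.1.1
  have hy2 : y2 ∈ C := hg'.1.2.1
  obtain ⟨f11, f12, f21, f22⟩ := four ha hx1 hx2 hy1 hy2 ht ht' hp hp'
  have hu : 0 < (x2 - x1).re :=
    re_pos_of_slope hε (hS.slope _ hg.1.2.2.2.1) (sub_ne_zero.2 hg.1.2.2.1.symm)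
  have hw : 0 < (y2 - y1).re :=
    re_pos_of_slope hε (hS.slope _ hg'.1.2.2.2.1) (sub_ne_zero.2 hg'.1.2.2.1.symm)
  have mx := hg.2
  have my := hg'.2
  simp only at mx my hcr ht ht' hp hp'
  obtain ⟨a, b, h1, h2, h3, h4⟩ := hp
  obtain ⟨c, d, k1, k2, k3, k4⟩ := hp'
  set lam : ℝ := (y2 - y1).re / (x2 - x1).re with hlam
  have hl : 0 < lam := div_pos hw hu
  have hyx : y2 - y1 = lam • (x2 - x1) := by
    apply Complex.ext
    · rw [Complex.smul_re, smul_eq_mul, hlam]; field_simp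
    · rw [Complex.smul_im, smul_eq_mul, hlam]
      unfold cr at hcr
      field_simp
      linarith
  have ea : a = 1 - b := by linarith
  have ec : c = 1 - d := by linarith
  have hy1' : y1 = x1 + (b - d * lam) • (x2 - x1) := by
    have e1 : y1 = (c • y1 + d • y2) - d • (y2 - y1) := by rw [ec]; module
    rw [e1, k4, ← h4, hyx, ea]; module
  have hy2' : y2 = x1 + (b + c * lam) • (x2 - x1) := by
    have e1 : y2 = (c • y1 + d • y2) + c • (y2 - y1) := by rw [ec]; module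
    rw [e1, k4, ← h4, hyx, ea]; module
  have hal : b - d * lam = 0 := by
    rcases lt_trichotomy (b - d * lam) 0 with h | h | h
    · exfalso
      have e : x1 - (-(b - d * lam)) • (x2 - x1) = y1 := by rw [hy1']; module
      refine (mx (-(b - d * lam)) (by linarith)).1 (by rw [e]; exact hy1) ?_
      rw [e, FF_comm]; exact f21
    · exact h
    · exfalso
      have e : y1 - ((b - d * lam) / lam) • (y2 - y1) = x1 := by
        rw [hyx, smul_smul, div_mul_cancel₀ _ hl.ne', hy1']; module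
      refine (my ((b - d * lam) / lam) (div_pos h hl)).1 (by rw [e]; exact hx1) ?_
      rw [e]; exact f12
  have hbe : b + c * lam = 1 := by
    rcases lt_trichotomy (b + c * lam) 1 with h | h | h
    · exfalso
      have e : y2 + ((1 - (b + c * lam)) / lam) • (y2 - y1) = x2 := by
        rw [hyx, smul_smul, div_mul_cancel₀ _ hl.ne', hy2']; module
      refine (my ((1 - (b + c * lam)) / lam) (div_pos (by linarith) hl)).2
        (by rw [e]; exact hx2) ?_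
      rw [e, FF_comm]; exact f21
    · exact h
    · exfalso
      have e : x2 + (b + c * lam - 1) • (x2 - x1) = y2 := by rw [hy2']; module
      refine (mx (b + c * lam - 1) (by linarith)).2 (by rw [e]; exact hy2) ?_
      rw [e]; exact f12
  rw [hal] at hy1'
  rw [hbe] at hy2'
  refine Prod.ext ?_ ?_
  · simp [hy1']
  · simp [hy2']

/-- Vertices of nondegenerate mutually tight triangles that contain `q` in their interior. -/
def vert (v : ℂ → ℂ) (C : Set ℂ) (q : ℂ) : Set ℂ :=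
  {x | x ∈ C ∧ ∃ y ∈ C, ∃ z ∈ C, FF v x y = 0 ∧ FF v x z = 0 ∧ FF v y z = 0 ∧
    ∃ a b c : ℝ, 0 < a ∧ 0 ≤ b ∧ 0 ≤ c ∧ a + b + c = 1 ∧ a • x + b • y + c • z = q}

theorem vert_countable (h : Data v l M K) (ha : Adm v l σ C) (q : ℂ) :
    (vert v C q).Countable := by
  have hσ := ha.pos
  have hK := h.Kpos
  have hr : 0 < σ / (4 * K) := by positivity
  refine PairwiseDisjoint.countable_of_isOpen (s := fun x : ℂ => ball x (σ / (4 * K))) ?_
    (fun _ _ => isOpen_ball) (fun x _ => nonempty_ball.2 hr)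
  intro x hx x' hx' hne
  obtain ⟨hxC, y, hy, z, hz, f1, f2, f3, a, b, c, h1, h2, h3, h4, h5⟩ := hx
  obtain ⟨hxC', y', hy', z', hz', g1, g2, g3, a', b', c', k1, k2, k3, k4, k5⟩ := hx'
  have ht : FF v x x' = 0 :=
    tri ha hxC hy hz hxC' hy' hz' h1 h2 h3 k1 k2 k3 h4 k4 f1 f2 f3 g1 g2 g3 (by rw [h5, k5])
  have hl := conf_long h ha (δ := 0) (by linarith) (mem_conf_univ hxC hxC' hne ht)
  refine ball_disjoint_ball ?_
  rw [dist_eq_norm]
  have e : σ / (4 * K) + σ / (4 * K) = σ / (2 * K) := by field_simp; ring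
  rw [e, div_le_iff₀ (by positivity)]
  simp only at hl
  linarith

/-- A nondegenerate triangle contains a point of any dense set, with positive weights. -/
theorem exists_dense_mem {Q : Set ℂ} (hQ : Dense Q) {x y z : ℂ} (hc : cr (y - x) (z - x) ≠ 0) :
    ∃ q ∈ Q, ∃ a b c : ℝ, 0 < a ∧ 0 ≤ b ∧ 0 ≤ c ∧ a + b + c = 1 ∧ a • x + b • y + c • z = q := by
  set D := cr (y - x) (z - x) with hD
  let fb : ℂ → ℝ := fun q => cr (q - x) (z - x) / D
  let fc : ℂ → ℝ := fun q => cr (y - x) (q - x) / D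
  have cb : Continuous fb := by unfold fb cr; fun_prop
  have cc : Continuous fc := by unfold fc cr; fun_prop
  have hU : IsOpen {q : ℂ | 0 < 1 - fb q - fc q ∧ 0 < fb q ∧ 0 < fc q} :=
    IsOpen.and (isOpen_lt continuous_const ((continuous_const.sub cb).sub cc))
      (IsOpen.and (isOpen_lt continuous_const cb) (isOpen_lt continuous_const cc))
  have hne : ({q : ℂ | 0 < 1 - fb q - fc q ∧ 0 < fb q ∧ 0 < fc q}).Nonempty := by
    refine ⟨x + (1 / 3 : ℝ) • (y - x) + (1 / 3 : ℝ) • (z - x), ?_⟩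
    have e1 : fb (x + (1 / 3 : ℝ) • (y - x) + (1 / 3 : ℝ) • (z - x)) = 1 / 3 := by
      simp only [fb]
      rw [div_eq_iff hc, hD]
      simp only [cr, Complex.sub_re, Complex.sub_im, Complex.add_re, Complex.add_im,
        Complex.smul_re, Complex.smul_im, smul_eq_mul]
      ring
    have e2 : fc (x + (1 / 3 : ℝ) • (y - x) + (1 / 3 : ℝ) • (z - x)) = 1 / 3 := by
      simp only [fc]
      rw [div_eq_iff hc, hD]
      simp only [cr, Complex.sub_re, Complex.sub_im, Complex.add_re, Complex.add_im,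
        Complex.smul_re, Complex.smul_im, smul_eq_mul]
      ring
    simp only [mem_ofPred_eq, e1, e2]
    norm_num
  obtain ⟨q, hq, hqU⟩ := hQ.exists_mem_open hU hne
  refine ⟨q, hq, 1 - fb q - fc q, fb q, fc q, hqU.1, hqU.2.1.le, hqU.2.2.le, by ring, ?_⟩
  have hD' : (y.re - x.re) * (z.im - x.im) - (y.im - x.im) * (z.re - x.re) = D := by
    rw [hD]; simp [cr]
  apply Complex.ext
  · simp only [fb, fc, cr, Complex.sub_re, Complex.sub_im, Complex.add_re,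
      Complex.smul_re, smul_eq_mul]
    field_simp
    rw [← hD']; ring
  · simp only [fb, fc, cr, Complex.sub_re, Complex.sub_im, Complex.add_im,
      Complex.smul_im, smul_eq_mul]
    field_simp
    rw [← hD']; ring

theorem crossA : SCrossA := by
  intro v l M K σ C h ha
  obtain ⟨Q, hQc, hQd⟩ := TopologicalSpace.exists_countable_dense ℂ
  refine ⟨⋃ q ∈ Q, vert v C q, hQc.biUnion fun q _ => vert_countable h ha q, ?_⟩
  intro g hg g' hg' hcr p hp hp'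
  obtain ⟨x1, x2⟩ := g
  obtain ⟨y1, y2⟩ := g'
  have ht := tight_eq ha hg
  have ht' := tight_eq ha hg'
  have hx1 : x1 ∈ C := hg.1
  have hx2 : x2 ∈ C := hg.2.1
  have hy1 : y1 ∈ C := hg'.1
  have hy2 : y2 ∈ C := hg'.2.1
  obtain ⟨f11, f12, f21, f22⟩ := four ha hx1 hx2 hy1 hy2 ht ht' hp hp'
  simp only at hcr ht ht' hp hp' ⊢
  obtain ⟨a, b, h1, h2, h3, h4⟩ := hp
  obtain ⟨c, d, k1, k2, k3, k4⟩ := hp'
  have ea : a = 1 - b := by linarith
  have ec : c = 1 - d := by linarith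
  have hy : y1 - x1 = b • (x2 - x1) - d • (y2 - y1) := by
    have e1 : y1 = (c • y1 + d • y2) - d • (y2 - y1) := by rw [ec]; module
    have e2 : y1 - x1 = (c • y1 + d • y2) - d • (y2 - y1) - x1 := by rw [← e1]
    rw [e2, k4, ← h4, ea]; module
  have hc1 : cr (x2 - x1) (y1 - x1) = -d * cr (x2 - x1) (y2 - y1) := by
    rw [hy]
    simp only [cr, Complex.sub_re, Complex.sub_im, Complex.smul_re, Complex.smul_im, smul_eq_mul]
    ring
  have hc2 : cr (x1 - x2) (y1 - x2) = -cr (x2 - x1) (y1 - x1) := by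
    simp only [cr, Complex.sub_re, Complex.sub_im]
    ring
  have n1 : cr (x2 - x1) (y1 - x1) ≠ 0 := by
    rw [hc1]; exact mul_ne_zero (neg_ne_zero.2 k2.ne') hcr
  have n2 : cr (x1 - x2) (y1 - x2) ≠ 0 := by rw [hc2]; exact neg_ne_zero.2 n1
  constructor
  · obtain ⟨q, hq, hw⟩ := exists_dense_mem hQd n1
    exact mem_biUnion hq ⟨hx1, x2, hx2, y1, hy1, ht, f11, f21, hw⟩
  · obtain ⟨q, hq, hw⟩ := exists_dense_mem hQd n2
    exact mem_biUnion hq ⟨hx2, x1, hx1, y1, hy1, by rw [FF_comm]; exact ht, f21, f11, hw⟩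

end Pool.Agent.MP_515557_an.H2
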